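import Pool.Agent.H63.PK.Targets
import Pool.Agent.H49.LNT.WSC
import Pool.Agent.H99.LNT.FGC

/-!
# Dual bases over fields (row BSF of the board pwk_modules)
-/

set_option autoImplicit false

open Finset

namespace Pool.Agent.H75.PK

open Pool.Agent.H59.LIN Pool.Agent.H13.LN Pool.Agent.H63.PK

/-- The relations belong to `RelM`. -/
theorem mem_RelM {R : Type} [CommRing R] {d : ℕ} {y : GW d →₀ ℤ} (h : RelP d y) :
    y.mapRange (Int.cast : ℤ → R) Int.cast_zero ∈ RelM R d :=
  Submodule.subset_span ⟨y, h, rfl⟩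

/-- The map from integral combinations. -/
noncomputable def toR (R : Type) [CommRing R] (d : ℕ) : (GW d →₀ ℤ) →+ (GW d →₀ R) :=
  Finsupp.mapRange.addMonoidHom (Int.castAddHom R)

theorem toR_apply (R : Type) [CommRing R] (d : ℕ) (y : GW d →₀ ℤ) :
    toR R d y = y.mapRange (Int.cast : ℤ → R) Int.cast_zero := rfl

theorem toR_single (R : Type) [CommRing R] (d : ℕ) (l : GW d) :
    toR R d (Finsupp.single l 1) = Finsupp.single l 1 := by
  rw [toR_apply, Finsupp.mapRange_single, Int.cast_one]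

theorem toR_mem {R : Type} [CommRing R] {d : ℕ} {y : GW d →₀ ℤ} (h : RelP d y) :
    toR R d y ∈ RelM R d := mem_RelM h

/-- The quotient is finite dimensional. -/
theorem fin_quot (k : Type) [Field k] (d : ℕ) :
    Module.Finite k ((GW d →₀ k) ⧸ RelM k d) := by
  obtain ⟨S, hS⟩ : ∃ S : Set (GW d), S = {l : GW d | ∀ a ∈ l.1, a < 2 * d} := ⟨_, rfl⟩
  have hfin : S.Finite := by
    have h1 := (Pool.Agent.H99.LNT.fgc_fin (2 * d)).preimage (f := fun l : GW d => l.1)
      (Subtype.val_injective.injOn)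
    refine h1.subset ?_
    intro l hl
    rw [hS] at hl
    exact ⟨l.2.1, hl⟩
  refine ⟨Submodule.fg_def.2 ⟨(fun l : GW d =>
    (Submodule.Quotient.mk (Finsupp.single l 1) : (GW d →₀ k) ⧸ RelM k d)) '' S,
    hfin.image _, ?_⟩⟩
  rw [eq_top_iff]
  rintro x -
  obtain ⟨y, rfl⟩ := Submodule.Quotient.mk_surjective _ x
  induction y using Finsupp.induction_linear with
  | zero => exact Submodule.zero_mem _
  | add y z hy hz => exact Submodule.add_mem _ hy hz
  | single l n =>
    have e1 : (Finsupp.single l n : GW d →₀ k) = n • Finsupp.single l 1 := by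
      rw [Finsupp.smul_single, smul_eq_mul, mul_one]
    rw [e1, Submodule.Quotient.mk_smul]
    refine Submodule.smul_mem _ n ?_
    have hf : Set.InjOn (fun a => l.1.idxOf a) {a | a ∈ l.1} := fun a ha b _ hab =>
      (List.idxOf_inj ha).1 hab
    obtain ⟨l', hl'⟩ : ∃ l' : GW d, l'.1 = l.1.map fun a => l.1.idxOf a :=
      ⟨⟨_, Pool.Agent.H99.LNT.fgc_map l.1 _ hf l.2⟩, rfl⟩
    have hr := toR_mem (R := k) (RelP.rel _ (Rel.relab l l' _ hf hl'))
    rw [map_sub, toR_single, toR_single] at hr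
    have e2 : (Submodule.Quotient.mk (Finsupp.single l 1) : (GW d →₀ k) ⧸ RelM k d) =
        Submodule.Quotient.mk (Finsupp.single l' 1) :=
      ((Submodule.Quotient.eq _).2 hr).symm
    rw [e2]
    refine Submodule.subset_span ⟨l', ?_, rfl⟩
    rw [hS]
    intro a ha
    rw [hl'] at ha
    obtain ⟨b, hb, rfl⟩ := List.mem_map.1 ha
    rw [← l.2.1]
    exact List.idxOf_lt_length_iff.2 hb

/-- A linear functional on the quotient gives a primitive weight system. -/
theorem pws_of {k : Type} [Field k] {d : ℕ} (F : ((GW d →₀ k) ⧸ RelM k d) →ₗ[k] k) :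
    ∃ W : List ℕ → k, PWS d W ∧
      ∀ l : GW d, W l.1 = F (Submodule.Quotient.mk (Finsupp.single l 1)) := by
  obtain ⟨φ, hφ⟩ : ∃ φ : Chd d →+ k, ∀ l : GW d, φ (QuotientAddGroup.mk (Finsupp.single l 1)) =
      F (Submodule.Quotient.mk (Finsupp.single l 1)) := by
    refine ⟨QuotientAddGroup.lift _ (F.toAddMonoidHom.comp
      ((RelM k d).mkQ.toAddMonoidHom.comp (toR k d))) ?_, fun l => ?_⟩
    · rw [AddSubgroup.closure_le]
      intro y hy
      show F ((RelM k d).mkQ (toR k d y)) = 0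
      have h1 : (RelM k d).mkQ (toR k d y) = 0 :=
        (Submodule.Quotient.mk_eq_zero _).2 (toR_mem (RelP.rel y hy))
      rw [h1, map_zero]
    · show F ((RelM k d).mkQ (toR k d (Finsupp.single l 1))) = _
      rw [toR_single]
      rfl
  obtain ⟨W, hW, hWφ⟩ := (Pool.Agent.H49.LNT.wsc d k).2 φ
  refine ⟨W, ⟨hW, ?_⟩, fun l => by rw [← hWφ, hφ]⟩
  intro a b l m ha hb hl hm hlm
  have h1 : W (l ++ m) = F (Submodule.Quotient.mk (Finsupp.single (⟨l ++ m, hlm⟩ : GW d) 1)) := by
    rw [← hφ, hWφ]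
  have h2 := toR_mem (R := k) (RelP.prod (d := d) a b ⟨l, hl⟩ ⟨m, hm⟩ ⟨l ++ m, hlm⟩ ha hb rfl)
  rw [toR_single] at h2
  rw [h1, (Submodule.Quotient.mk_eq_zero _).2 h2, map_zero]

theorem bsf : T_BSF := by
  intro k _ d
  have hfin := fin_quot k d
  obtain ⟨r, ⟨b⟩⟩ : ∃ r, Nonempty (Module.Basis (Fin r) k ((GW d →₀ k) ⧸ RelM k d)) :=
    ⟨_, ⟨Module.finBasis k _⟩⟩
  choose x hx hxl using fun i : Fin r => pws_of (b.coord i)
  choose y hy using fun i : Fin r => Submodule.Quotient.mk_surjective (RelM k d) (b i)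
  have hsum : ∀ (i : Fin r) (z : GW d →₀ k), (z.sum fun l c => c * x i l.1) =
      b.repr (Submodule.Quotient.mk z) i := by
    intro i z
    induction z using Finsupp.induction_linear with
    | zero => simp
    | add z w hz hw =>
      rw [Finsupp.sum_add_index' (fun _ => zero_mul _) (fun _ _ _ => add_mul _ _ _), hz, hw,
        Submodule.Quotient.mk_add, map_add, Finsupp.add_apply]
    | single l c =>
      rw [Finsupp.sum_single_index (zero_mul _), hxl i l]
      have e1 : (Finsupp.single l c : GW d →₀ k) = c • Finsupp.single l 1 := by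
        rw [Finsupp.smul_single, smul_eq_mul, mul_one]
      rw [e1, Submodule.Quotient.mk_smul, map_smul, Finsupp.smul_apply, smul_eq_mul,
        Module.Basis.coord_apply]
  refine ⟨r, x, y, hx, fun i j => ?_, fun l => ?_⟩
  · rw [hsum, hy, Module.Basis.repr_self, Finsupp.single_apply]
    exact if_congr eq_comm rfl rfl
  · rw [← Submodule.Quotient.mk_eq_zero, Submodule.Quotient.mk_sub, ← Submodule.mkQ_apply,
      ← Submodule.mkQ_apply, map_sum, sub_eq_zero]
    have h1 : ∀ i, (RelM k d).mkQ (x i l.1 • y i) = b.repr (Submodule.Quotient.mk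
        (Finsupp.single l 1)) i • b i := by
      intro i
      rw [map_smul, Submodule.mkQ_apply, hy, hxl, Module.Basis.coord_apply]
    simp only [h1]
    rw [b.sum_repr]
    rfl

end Pool.Agent.H75.PK
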