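import Pool.Agent.H63.PK.Targets

/-!
# The exponential of a set function: the recursion (row ESA of the board pwk_modules)
-/

set_option autoImplicit false

open Finset

namespace Pool.Agent.H75.PK

open Pool.Agent.H59.LIN Pool.Agent.H13.LN Pool.Agent.H63.PK

variable {A : Type} [CommRing A]

theorem Es_empty (h : Finset ℕ → A) : Es h ∅ = 1 := by
  rw [Es, dif_neg (by simp)]

theorem Es_min (h : Finset ℕ → A) {T : Finset ℕ} (hT : T.Nonempty) :
    Es h T = ∑ J ∈ T.powerset.filter (fun J => T.min' hT ∈ J), h J * Es h (T \ J) := by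
  rw [Es, dif_pos hT]
  exact sum_attach (T.powerset.filter (fun J => T.min' hT ∈ J))
    (fun J => h J * Es h (T \ J))

theorem card_sdiff_lt {T J : Finset ℕ} {a : ℕ} (haT : a ∈ T) (haJ : a ∈ J) :
    (T \ J).card < T.card :=
  card_lt_card ((ssubset_iff_of_subset sdiff_subset).2
    ⟨a, haT, fun h => (mem_sdiff.1 h).2 haJ⟩)

/-- The exchange of the two sums. -/
theorem exch (h : Finset ℕ → A) (T : Finset ℕ) (a b : ℕ) :
    ∑ J ∈ T.powerset.filter (fun J => b ∈ J ∧ a ∉ J), ∑ K ∈ (T \ J).powerset.filter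
      (fun K => a ∈ K), h J * (h K * Es h ((T \ J) \ K)) =
    ∑ K ∈ T.powerset.filter (fun K => a ∈ K ∧ b ∉ K), ∑ J ∈ (T \ K).powerset.filter
      (fun J => b ∈ J), h K * (h J * Es h ((T \ K) \ J)) := by
  have h1 : ∀ J K : Finset ℕ, h J * (h K * Es h ((T \ J) \ K)) =
      h K * (h J * Es h ((T \ K) \ J)) := by
    intro J K
    rw [sdiff_right_comm]
    ring
  refine Eq.trans (sum_congr rfl fun J _ => sum_congr rfl fun K _ => h1 J K) ?_
  refine sum_comm' (fun J K => ?_)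
  simp only [mem_filter, mem_powerset, subset_sdiff]
  constructor
  · rintro ⟨⟨hJ, hb, ha⟩, ⟨hK, hd⟩, haK⟩
    exact ⟨⟨⟨hJ, hd.symm⟩, hb⟩, hK, haK, fun hbK => disjoint_left.1 hd hbK hb⟩
  · rintro ⟨⟨⟨hJ, hd⟩, hb⟩, hK, haK, -⟩
    exact ⟨⟨hJ, hb, fun haJ => disjoint_left.1 hd haJ haK⟩, ⟨hK, hd.symm⟩, haK⟩

theorem Es_rec (h : Finset ℕ → A) (n : ℕ) : ∀ T : Finset ℕ, T.card = n → ∀ a ∈ T,
    Es h T = ∑ J ∈ T.powerset.filter (fun J => a ∈ J), h J * Es h (T \ J) := by
  induction n using Nat.strong_induction_on with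
  | _ n ih =>
    intro T hTn a haT
    have hT : T.Nonempty := ⟨a, haT⟩
    set b := T.min' hT with hb
    have hbT : b ∈ T := T.min'_mem hT
    have hmin := Es_min h hT
    rw [← hb] at hmin
    by_cases hab : a = b
    · rw [hab]
      exact hmin
    have hsplit : ∀ x y : ℕ, ∑ J ∈ T.powerset.filter (fun J => x ∈ J), h J * Es h (T \ J) =
        ∑ J ∈ T.powerset.filter (fun J => x ∈ J ∧ y ∈ J), h J * Es h (T \ J) +
        ∑ J ∈ T.powerset.filter (fun J => x ∈ J ∧ y ∉ J), h J * Es h (T \ J) := by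
      intro x y
      rw [← sum_filter_add_sum_filter_not (T.powerset.filter (fun J => x ∈ J)) (fun J => y ∈ J),
        filter_filter, filter_filter]
    have hexp : ∀ x y : ℕ, x ∈ T → y ∈ T →
        ∑ J ∈ T.powerset.filter (fun J => x ∈ J ∧ y ∉ J), h J * Es h (T \ J) =
        ∑ J ∈ T.powerset.filter (fun J => x ∈ J ∧ y ∉ J), ∑ K ∈ (T \ J).powerset.filter
          (fun K => y ∈ K), h J * (h K * Es h ((T \ J) \ K)) := by
      intro x y hx hy
      refine sum_congr rfl (fun J hJ => ?_)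
      rw [mem_filter, mem_powerset] at hJ
      rw [← mul_sum]
      congr 1
      exact ih _ (by rw [← hTn]; exact card_sdiff_lt hx hJ.2.1) (T \ J) rfl y
        (mem_sdiff.2 ⟨hy, hJ.2.2⟩)
    rw [hmin, hsplit b a, hsplit a b, hexp b a hbT haT, hexp a b haT hbT, exch h T a b]
    congr 1
    refine sum_congr ?_ (fun _ _ => rfl)
    ext J
    simp only [mem_filter, and_comm (a := b ∈ J)]

theorem esa : T_ESA := fun _ _ h => ⟨Es_empty h, fun T a ha => Es_rec h T.card T rfl a ha⟩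

end Pool.Agent.H75.PK
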