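import Pool.Agent.H63.PK.Targets

/-!
# The exponential of a set function: further properties (row ESC of the board pwk_modules)
-/

set_option autoImplicit false

open Finset

namespace Pool.Agent.H75.PK

open Pool.Agent.H59.LIN Pool.Agent.H13.LN Pool.Agent.H63.PK

theorem card_sdiff_lt' {T J : Finset ℕ} {a : ℕ} (haT : a ∈ T) (haJ : a ∈ J) :
    (T \ J).card < T.card :=
  card_lt_card ((ssubset_iff_of_subset sdiff_subset).2
    ⟨a, haT, fun h => (mem_sdiff.1 h).2 haJ⟩)

/-- Splitting off the term `J = T`. -/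
theorem Es_split (hE : T_ESA) {A : Type} [CommRing A] (h : Finset ℕ → A) {T : Finset ℕ} {a : ℕ}
    (ha : a ∈ T) : Es h T - h T =
      ∑ J ∈ (T.powerset.filter (fun J => a ∈ J)).erase T, h J * Es h (T \ J) := by
  rw [(hE A h).2 T a ha]
  have hT : T ∈ T.powerset.filter (fun J => a ∈ J) :=
    mem_filter.2 ⟨mem_powerset.2 (Subset.refl T), ha⟩
  rw [← add_sum_erase _ _ hT, sdiff_self]
  have h0 : Es h (⊥ : Finset ℕ) = 1 := (hE A h).1
  rw [h0, mul_one, add_sub_cancel_left]

theorem Es_mem_ideal (hE : T_ESA) {A : Type} [CommRing A] (I : Ideal A) (h : Finset ℕ → A)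
    (T : Finset ℕ) (hT : T.Nonempty) (hI : ∀ J ⊆ T, J.Nonempty → h J ∈ I) : Es h T ∈ I := by
  obtain ⟨a, ha⟩ := hT
  rw [(hE A h).2 T a ha]
  refine I.sum_mem (fun J hJ => ?_)
  rw [mem_filter, mem_powerset] at hJ
  exact I.mul_mem_right _ (hI J hJ.1 ⟨a, hJ.2⟩)

theorem esc1 (hE : T_ESA) {A : Type} [CommRing A] (I : Ideal A) (h : Finset ℕ → A)
    (T : Finset ℕ) (hT : T.Nonempty) (hI : ∀ J ⊆ T, J.Nonempty → h J ∈ I) :
    Es h T - h T ∈ I ^ 2 := by
  obtain ⟨a, ha⟩ := hT
  rw [Es_split hE h ha, pow_two]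
  refine Ideal.sum_mem _ (fun J hJ => ?_)
  rw [mem_erase, mem_filter, mem_powerset] at hJ
  refine Ideal.mul_mem_mul (hI J hJ.2.1 ⟨a, hJ.2.2⟩) ?_
  refine Es_mem_ideal hE I h _ ?_ (fun K hK hK0 => hI K (hK.trans sdiff_subset) hK0)
  rw [sdiff_nonempty]
  exact fun h1 => hJ.1 (Subset.antisymm hJ.2.1 h1)

theorem Es_mem_alg (hE : T_ESA) {R A : Type} [CommRing R] [CommRing A] [Algebra R A]
    (S : Subalgebra R A) (h : Finset ℕ → A) (n : ℕ) : ∀ T : Finset ℕ, T.card = n →
    (∀ J ⊆ T, J.Nonempty → h J ∈ S) → Es h T ∈ S := by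
  induction n using Nat.strong_induction_on with
  | _ n ih =>
    intro T hTn hS
    rcases T.eq_empty_or_nonempty with rfl | ⟨a, ha⟩
    · rw [(hE A h).1]
      exact S.one_mem
    · rw [(hE A h).2 T a ha]
      refine S.sum_mem (fun J hJ => ?_)
      rw [mem_filter, mem_powerset] at hJ
      exact S.mul_mem (hS J hJ.1 ⟨a, hJ.2⟩) (ih _ (by rw [← hTn]; exact card_sdiff_lt' ha hJ.2)
        (T \ J) rfl (fun K hK hK0 => hS K (hK.trans sdiff_subset) hK0))

theorem esc2 (hE : T_ESA) {R A : Type} [CommRing R] [CommRing A] [Algebra R A]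
    (S : Subalgebra R A) (h : Finset ℕ → A) (T : Finset ℕ) (hT : T.Nonempty)
    (hS : ∀ J ⊂ T, J.Nonempty → h J ∈ S) : Es h T - h T ∈ S := by
  obtain ⟨a, ha⟩ := hT
  rw [Es_split hE h ha]
  refine S.sum_mem (fun J hJ => ?_)
  rw [mem_erase, mem_filter, mem_powerset] at hJ
  refine S.mul_mem (hS J (lt_of_le_of_ne hJ.2.1 hJ.1) ⟨a, hJ.2.2⟩) ?_
  refine Es_mem_alg hE S h _ (T \ J) rfl (fun K hK hK0 => hS K ?_ hK0)
  refine ⟨hK.trans sdiff_subset, fun h1 => ?_⟩
  exact (mem_sdiff.1 (hK (h1 ha))).2 hJ.2.2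

theorem esc3 (hE : T_ESA) {R A : Type} [CommRing R] [CommRing A] [Algebra R A]
    (D : Derivation R A A) (h : Finset ℕ → A) (n : ℕ) : ∀ T : Finset ℕ, T.card = n →
    D (Es h T) = ∑ J ∈ T.powerset.filter (fun J => J.Nonempty), D (h J) * Es h (T \ J) := by
  induction n using Nat.strong_induction_on with
  | _ n ih =>
    intro T hTn
    rcases T.eq_empty_or_nonempty with rfl | ⟨a, ha⟩
    · rw [(hE A h).1, Derivation.map_one_eq_zero]
      symm
      apply sum_eq_zero
      intro J hJ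
      rw [mem_filter, mem_powerset, subset_empty] at hJ
      obtain ⟨h1, h2⟩ := hJ
      rw [h1] at h2
      exact absurd h2 (by simp)
    · have e1 : D (Es h T) = ∑ K ∈ T.powerset.filter (fun K => a ∈ K),
          (h K * D (Es h (T \ K)) + D (h K) * Es h (T \ K)) := by
        rw [(hE A h).2 T a ha, map_sum]
        refine sum_congr rfl (fun K _ => ?_)
        rw [Derivation.leibniz, smul_eq_mul, smul_eq_mul]
        ring
      have e2 : ∑ K ∈ T.powerset.filter (fun K => a ∈ K), h K * D (Es h (T \ K)) =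
          ∑ K ∈ T.powerset.filter (fun K => a ∈ K),
            ∑ J ∈ (T \ K).powerset.filter (fun J => J.Nonempty),
              D (h J) * (h K * Es h ((T \ J) \ K)) := by
        refine sum_congr rfl (fun K hK => ?_)
        rw [mem_filter, mem_powerset] at hK
        rw [ih _ (by rw [← hTn]; exact card_sdiff_lt' ha hK.2) (T \ K) rfl, mul_sum]
        refine sum_congr rfl (fun J _ => ?_)
        rw [sdiff_right_comm]
        ring
      have e3 : ∑ K ∈ T.powerset.filter (fun K => a ∈ K),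
            ∑ J ∈ (T \ K).powerset.filter (fun J => J.Nonempty),
              D (h J) * (h K * Es h ((T \ J) \ K)) =
          ∑ J ∈ T.powerset.filter (fun J => J.Nonempty ∧ a ∉ J),
            ∑ K ∈ (T \ J).powerset.filter (fun K => a ∈ K),
              D (h J) * (h K * Es h ((T \ J) \ K)) := by
        refine sum_comm' (fun K J => ?_)
        simp only [mem_filter, mem_powerset, subset_sdiff]
        constructor
        · rintro ⟨⟨hK, haK⟩, ⟨hJ, hd⟩, hJ0⟩
          exact ⟨⟨⟨hK, hd.symm⟩, haK⟩, hJ, hJ0, fun haJ => disjoint_left.1 hd haJ haK⟩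
        · rintro ⟨⟨⟨hK, hd⟩, haK⟩, hJ, hJ0, -⟩
          exact ⟨⟨hK, haK⟩, ⟨hJ, hd.symm⟩, hJ0⟩
      have e4 : ∑ J ∈ T.powerset.filter (fun J => J.Nonempty ∧ a ∉ J),
            ∑ K ∈ (T \ J).powerset.filter (fun K => a ∈ K),
              D (h J) * (h K * Es h ((T \ J) \ K)) =
          ∑ J ∈ T.powerset.filter (fun J => J.Nonempty ∧ a ∉ J), D (h J) * Es h (T \ J) := by
        refine sum_congr rfl (fun J hJ => ?_)
        rw [mem_filter, mem_powerset] at hJ
        rw [← mul_sum, (hE A h).2 (T \ J) a (mem_sdiff.2 ⟨ha, hJ.2.2⟩)]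
      rw [e1, sum_add_distrib, e2, e3, e4,
        ← sum_filter_add_sum_filter_not (T.powerset.filter (fun J => J.Nonempty))
          (fun J => a ∈ J), filter_filter, filter_filter, add_comm]
      congr 1
      refine sum_congr ?_ (fun _ _ => rfl)
      ext J
      simp only [mem_filter]
      constructor
      · rintro ⟨h1, h2⟩
        exact ⟨h1, ⟨a, h2⟩, h2⟩
      · rintro ⟨h1, -, h2⟩
        exact ⟨h1, h2⟩

theorem esc4 (hE : T_ESA) {R σ : Type} [CommRing R] (w : σ → ℕ)
    (h : Finset ℕ → MvPolynomial σ R) (n : ℕ) : ∀ T : Finset ℕ, T.card = n →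
    (∀ J ⊆ T, J.Nonempty → MvPolynomial.IsWeightedHomogeneous w (h J) J.card) →
    MvPolynomial.IsWeightedHomogeneous w (Es h T) T.card := by
  induction n using Nat.strong_induction_on with
  | _ n ih =>
    intro T hTn hh
    rcases T.eq_empty_or_nonempty with rfl | ⟨a, ha⟩
    · rw [(hE _ h).1, card_empty]
      exact MvPolynomial.isWeightedHomogeneous_one R w
    · rw [(hE _ h).2 T a ha]
      refine MvPolynomial.IsWeightedHomogeneous.sum _ _ _ (fun J hJ => ?_)
      rw [mem_filter, mem_powerset] at hJ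
      have h1 := (hh J hJ.1 ⟨a, hJ.2⟩).mul (ih _ (by rw [← hTn]; exact card_sdiff_lt' ha hJ.2)
        (T \ J) rfl (fun K hK hK0 => hh K (hK.trans sdiff_subset) hK0))
      rwa [add_comm, card_sdiff_add_card_eq_card hJ.1] at h1

theorem esc (h : T_ESA) : T_ESC :=
  ⟨fun _ _ I g T hT hI => esc1 h I g T hT hI, fun _ _ _ _ _ S g T hT hS => esc2 h S g T hT hS,
    fun _ _ _ _ _ D g T => esc3 h D g T.card T rfl,
    fun _ _ _ w g T hg => esc4 h w g T.card T rfl hg⟩

end Pool.Agent.H75.PK
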