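import Pool.Agent.H63.PK.Targets

/-!
# Torsion and lifting of homomorphisms (row TFL of the board pwk_modules)
-/

set_option autoImplicit false

open Finset

namespace Pool.Agent.H75.PK

open Pool.Agent.H59.LIN Pool.Agent.H13.LN Pool.Agent.H63.PK

/-- Homomorphisms to `ℤ / p` lift if there is no `p`-torsion. -/
theorem tfl_lift {A : Type} [AddCommGroup A] (hA : AddGroup.FG A) {p : ℕ} (hp : p.Prime)
    (hT : ∀ x : A, p • x = 0 → x = 0) (f : A →+ ZMod p) :
    ∃ g : A →+ ℤ, ∀ a, ((g a : ℤ) : ZMod p) = f a := by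
  have hfin : Module.Finite ℤ A := Module.Finite.iff_addGroup_fg.2 hA
  -- `f` kills the torsion
  have hkill : ∀ x ∈ Submodule.torsion ℤ A, f.toIntLinearMap x = 0 := by
    intro x hx
    obtain ⟨⟨n, hn⟩, hnx⟩ := (Submodule.mem_torsion_iff x).1 hx
    have hn0 : n ≠ 0 := nonZeroDivisors.ne_zero hn
    have hnx' : n • x = 0 := hnx
    have hfo : IsOfFinAddOrder x := isOfFinAddOrder_iff_zsmul_eq_zero.2 ⟨n, hn0, hnx'⟩
    have ho : 0 < addOrderOf x := hfo.addOrderOf_pos
    have hnd : ¬ p ∣ addOrderOf x := by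
      rintro ⟨m, hm⟩
      have hm0 : m ≠ 0 := by
        rintro rfl
        rw [mul_zero] at hm
        omega
      have h1 : p • (m • x) = 0 := by
        rw [← mul_smul, ← hm]
        exact addOrderOf_nsmul_eq_zero x
      have h2 : m • x = 0 := hT _ h1
      have h3 := addOrderOf_dvd_of_nsmul_eq_zero h2
      have h4 := Nat.le_of_dvd (Nat.pos_of_ne_zero hm0) h3
      rw [hm] at h4
      have := hp.two_le
      have hm1 : 0 < m := Nat.pos_of_ne_zero hm0
      nlinarith
    have h1 : (addOrderOf x) • f x = 0 := by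
      rw [← map_nsmul, addOrderOf_nsmul_eq_zero, map_zero]
    show f x = 0
    have : Fact p.Prime := ⟨hp⟩
    rw [nsmul_eq_mul] at h1
    rcases mul_eq_zero.1 h1 with h2 | h2
    · exact absurd ((ZMod.natCast_eq_zero_iff _ _).1 h2) hnd
    · exact h2
  -- the quotient by the torsion is free
  have hfree : Module.Free ℤ (A ⧸ Submodule.torsion ℤ A) := inferInstance
  obtain ⟨g, hg⟩ := Module.projective_lifting_property
    ((Int.castAddHom (ZMod p)).toIntLinearMap)
    ((Submodule.torsion ℤ A).liftQ f.toIntLinearMap hkill) (fun y => by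
      obtain ⟨n, hn⟩ := ZMod.intCast_surjective y
      exact ⟨n, hn⟩)
  refine ⟨(g.comp (Submodule.torsion ℤ A).mkQ).toAddMonoidHom, fun a => ?_⟩
  have h1 := congrArg (fun F => F ((Submodule.torsion ℤ A).mkQ a)) hg
  exact h1

theorem sep_aux' {V : Type} [AddCommGroup V] {p : ℕ} [Fact p.Prime] [Module (ZMod p) V] (v : V)
    (h : ∀ f : V →+ ZMod p, f v = 0) : v = 0 := by
  have h1 : Module.Projective (ZMod p) V := inferInstance
  exact (Module.forall_dual_apply_eq_zero_iff (ZMod p) v).1 (fun φ => h φ.toAddMonoidHom)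

/-- Homomorphisms to `ℤ / p` separate the elements of a group killed by `p`. -/
theorem sep_aux {V : Type} [AddCommGroup V] {p : ℕ} (hp : p.Prime) (hV : ∀ v : V, p • v = 0)
    (v : V) (h : ∀ f : V →+ ZMod p, f v = 0) : v = 0 := by
  have : Fact p.Prime := ⟨hp⟩
  exact @sep_aux' V _ p _ (AddCommGroup.zmodModule hV) v h

/-- If all homomorphisms to `ℤ / p` vanish on `a`, then `a` is divisible by `p`. -/
theorem tfl_sep {A : Type} [AddCommGroup A] {p : ℕ} (hp : p.Prime) (a : A)
    (h : ∀ f : A →+ ZMod p, f a = 0) : ∃ b : A, p • b = a := by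
  set P : AddSubgroup A := (nsmulAddMonoidHom (α := A) p).range with hP
  have hV : ∀ v : A ⧸ P, p • v = 0 := by
    intro v
    obtain ⟨x, rfl⟩ := QuotientAddGroup.mk_surjective v
    rw [← QuotientAddGroup.mk_nsmul]
    exact (QuotientAddGroup.eq_zero_iff _).2 ⟨x, rfl⟩
  have h1 : (QuotientAddGroup.mk a : A ⧸ P) = 0 :=
    sep_aux hp hV _ (fun φ => h (φ.comp (QuotientAddGroup.mk' P)))
  obtain ⟨b, hb⟩ := (QuotientAddGroup.eq_zero_iff _).1 h1
  exact ⟨b, hb⟩

theorem tfl_tors {A : Type} [AddCommGroup A] (hA : AddGroup.FG A) {p : ℕ} (hp : p.Prime)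
    {B : Type} [AddCommGroup B] (π : B →+ ZMod p) (hB : ∀ b : B, p • b = 0 → b = 0)
    (hL : ∀ f : A →+ ZMod p, ∃ g : A →+ B, ∀ a, π (g a) = f a) (x : A) (hx : p • x = 0) :
    x = 0 := by
  have hfin : Module.Finite ℤ A := Module.Finite.iff_addGroup_fg.2 hA
  have hnoe : IsNoetherian ℤ A := inferInstance
  have hBk : ∀ (k : ℕ) (b : B), p ^ k • b = 0 → b = 0 := by
    intro k
    induction k with
    | zero => intro b hb; simpa using hb
    | succ k ih =>
      intro b hb
      refine ih b (hB _ ?_)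
      rw [← mul_smul, ← pow_succ']
      exact hb
  have hdiv : ∀ (k : ℕ) (a : A), p ^ k • a = 0 → ∃ b : A, p • b = a := by
    intro k a ha
    refine tfl_sep hp a (fun f => ?_)
    obtain ⟨g, hg⟩ := hL f
    rw [← hg a, hBk k (g a) (by rw [← map_nsmul, ha, map_zero]), map_zero]
  -- the chain of the kernels
  obtain ⟨K, hK⟩ : ∃ K : ℕ, ∀ a : A, p ^ (K + 1) • a = 0 → p ^ K • a = 0 := by
    let c : ℕ →o Submodule ℤ A :=
      { toFun := fun k => LinearMap.ker (((p ^ k : ℕ) : ℤ) • (LinearMap.id : A →ₗ[ℤ] A))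
        monotone' := by
          intro i j hij a ha
          rw [LinearMap.mem_ker, LinearMap.smul_apply, LinearMap.id_apply] at ha ⊢
          obtain ⟨m, rfl⟩ := Nat.exists_eq_add_of_le hij
          rw [pow_add, Nat.mul_comm, Nat.cast_mul, mul_smul, ha, smul_zero] }
    obtain ⟨K, hK⟩ := monotone_stabilizes_iff_noetherian.2 hnoe c
    refine ⟨K, fun a ha => ?_⟩
    have h1 : a ∈ c (K + 1) := by
      show a ∈ LinearMap.ker _
      rw [LinearMap.mem_ker, LinearMap.smul_apply, LinearMap.id_apply, natCast_zsmul]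
      exact ha
    rw [← hK (K + 1) (Nat.le_succ K)] at h1
    have h2 : a ∈ LinearMap.ker (((p ^ K : ℕ) : ℤ) • (LinearMap.id : A →ₗ[ℤ] A)) := h1
    rw [LinearMap.mem_ker, LinearMap.smul_apply, LinearMap.id_apply, natCast_zsmul] at h2
    exact h2
  have key : ∀ n : ℕ, ∃ a : A, p ^ n • a = x := by
    intro n
    induction n with
    | zero => exact ⟨x, by simp⟩
    | succ n ih =>
      obtain ⟨a, ha⟩ := ih
      obtain ⟨b, hb⟩ := hdiv (n + 1) a (by rw [pow_succ', mul_smul, ha, hx])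
      exact ⟨b, by rw [pow_succ, mul_smul, hb, ha]⟩
  obtain ⟨a, ha⟩ := key K
  have h1 : p ^ (K + 1) • a = 0 := by rw [pow_succ', mul_smul, ha, hx]
  rw [← ha]
  exact hK a h1

theorem tfl : T_TFL := fun _ _ hA _ hp =>
  ⟨fun hT f => tfl_lift hA hp hT f, fun _ _ π hB hL x hx => tfl_tors hA hp π hB hL x hx⟩

end Pool.Agent.H75.PK
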